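import Pool.Agent.Helper94_Rad.Stmt

/-!
# Squad RAD, module RTC: the number of solutions of `R c ≡ 0` modulo `v` (helper18)
-/

set_option autoImplicit false

namespace Pool.Agent.RAD.H18

open Polynomial

theorem rtc_prime_pow (R : ℤ[X]) (K D : ℕ) (hD : R.natDegree = D) (hL : Loc R K) (p n : ℕ)
    (hp : p.Prime) (hn : 0 < n) (hpK : ¬ p ∣ K) :
    ∃ s : Finset ℤ, s.card ≤ D ∧
      ∀ c : ℤ, ((p ^ n : ℕ) : ℤ) ∣ R.eval c → ∃ c₀ ∈ s, c ≡ c₀ [ZMOD (p ^ n : ℕ)] := by
  classical
  obtain ⟨hlc, hder⟩ := hL p hp hpK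
  have : Fact p.Prime := ⟨hp⟩
  set Rp : (ZMod p)[X] := R.map (Int.castRingHom (ZMod p)) with hRp
  have hlc' : (Int.castRingHom (ZMod p)) R.leadingCoeff ≠ 0 := by
    intro h0
    apply hlc
    rwa [eq_intCast, ZMod.intCast_zmod_eq_zero_iff_dvd] at h0
  have hne : Rp ≠ 0 := by
    intro h0
    apply hlc'
    have h1 := congrArg (fun q => q.coeff R.natDegree) h0
    simpa [hRp] using h1
  let f : ZMod p → ℤ := fun r => if h : ∃ c : ℤ, ((p ^ n : ℕ) : ℤ) ∣ R.eval c ∧ (c : ZMod p) = r
    then h.choose else 0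
  refine ⟨Rp.roots.toFinset.image f, ?_, fun c hc => ?_⟩
  · refine Finset.card_image_le.trans ?_
    refine (Multiset.toFinset_card_le _).trans ?_
    refine (card_roots' Rp).trans ?_
    rw [← hD]
    exact natDegree_map_le
  · have hpd : (p : ℤ) ∣ ((p ^ n : ℕ) : ℤ) := by
      rw [Nat.cast_pow]
      exact dvd_pow_self _ hn.ne'
    have hroot : ((c : ℤ) : ZMod p) ∈ Rp.roots.toFinset := by
      rw [Multiset.mem_toFinset, mem_roots hne, IsRoot.def, hRp]
      have h1 : (R.map (Int.castRingHom (ZMod p))).eval ((Int.castRingHom (ZMod p)) c)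
          = (Int.castRingHom (ZMod p)) (R.eval c) := eval_map_apply _ _
      have h2 : (Int.castRingHom (ZMod p)) (R.eval c) = 0 := by
        rw [eq_intCast, ZMod.intCast_zmod_eq_zero_iff_dvd]
        exact hpd.trans hc
      rw [h2] at h1
      simpa using h1
    refine ⟨f c, Finset.mem_image_of_mem f hroot, ?_⟩
    have hex : ∃ c' : ℤ, ((p ^ n : ℕ) : ℤ) ∣ R.eval c' ∧ (c' : ZMod p) = (c : ZMod p) :=
      ⟨c, hc, rfl⟩
    have hf : f c = hex.choose := dif_pos hex
    obtain ⟨h1, h2⟩ := hex.choose_spec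
    rw [← hf] at h1 h2
    set a : ℤ := f c with ha
    have hpa : (p : ℤ) ∣ c - a := by
      rw [← ZMod.intCast_zmod_eq_zero_iff_dvd]
      push_cast
      rw [h2, sub_self]
    obtain ⟨k, hk⟩ := R.binomExpansion a (c - a)
    rw [add_sub_cancel] at hk
    have h3 : ((p ^ n : ℕ) : ℤ) ∣ (c - a) * ((derivative R).eval a + k * (c - a)) := by
      have h4 : (c - a) * ((derivative R).eval a + k * (c - a)) = R.eval c - R.eval a := by
        rw [hk]
        ring
      rw [h4]
      exact dvd_sub hc h1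
    have h5 : ¬ (p : ℤ) ∣ (derivative R).eval a + k * (c - a) := by
      intro h6
      have h7 : (p : ℤ) ∣ (derivative R).eval a := by
        have := dvd_sub h6 (hpa.mul_left k)
        simpa using this
      exact hder a (hpd.trans h1) h7
    have h8 : IsCoprime ((p ^ n : ℕ) : ℤ) ((derivative R).eval a + k * (c - a)) := by
      rw [Nat.cast_pow]
      apply IsCoprime.pow_left
      rwa [Prime.coprime_iff_not_dvd (Nat.prime_iff_prime_int.mp hp)]
    have h9 : ((p ^ n : ℕ) : ℤ) ∣ c - a := h8.dvd_of_dvd_mul_right h3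
    exact (Int.modEq_iff_dvd.mpr h9).symm

theorem int_crt (a b : ℤ) (h : IsCoprime a b) (x y : ℤ) : ∃ z : ℤ, a ∣ z - x ∧ b ∣ z - y := by
  obtain ⟨u, w, huw⟩ := h
  refine ⟨x * (w * b) + y * (u * a), ?_, ?_⟩
  · refine ⟨u * (y - x), ?_⟩
    linear_combination x * huw
  · refine ⟨w * (x - y), ?_⟩
    linear_combination y * huw

/-- module RTC -/
theorem rtc : RtcStmt := by
  classical
  intro R K D hD hL v
  induction v using Nat.recOnPosPrimePosCoprime with
  | prime_pow p n hp hn =>
    intro _ hco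
    have hpK : ¬ p ∣ K := by
      intro h
      have h1 : p ∣ Nat.gcd (p ^ n) K := Nat.dvd_gcd (dvd_pow_self p hn.ne') h
      rw [hco] at h1
      exact hp.one_lt.ne' (Nat.dvd_one.mp h1)
    obtain ⟨s, hs, h⟩ := rtc_prime_pow R K D hD hL p n hp hn hpK
    refine ⟨s, ?_, h⟩
    rw [Nat.primeFactors_prime_pow hn.ne' hp, Finset.card_singleton, pow_one]
    exact hs
  | zero =>
    intro h
    omega
  | one =>
    intro _ _
    refine ⟨{0}, by simp, fun c _ => ⟨0, Finset.mem_singleton_self 0, ?_⟩⟩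
    rw [Nat.cast_one]
    exact Int.modEq_one
  | coprime a b ha hb hab iha ihb =>
    intro _ hco
    obtain ⟨s, hs, h1⟩ := iha ha.le (Nat.Coprime.coprime_mul_right hco)
    obtain ⟨t, ht, h2⟩ := ihb hb.le (Nat.Coprime.coprime_mul_left hco)
    have hab' : IsCoprime (a : ℤ) (b : ℤ) := Nat.isCoprime_iff_coprime.mpr hab
    choose z hza hzb using int_crt (a : ℤ) (b : ℤ) hab'
    refine ⟨(s ×ˢ t).image (fun q => z q.1 q.2), ?_, fun c hc => ?_⟩
    · refine Finset.card_image_le.trans ?_
      rw [Finset.card_product, hab.primeFactors_mul,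
        Finset.card_union_of_disjoint hab.disjoint_primeFactors, pow_add]
      exact Nat.mul_le_mul hs ht
    · rw [Nat.cast_mul] at hc
      obtain ⟨x, hx, hcx⟩ := h1 c ((dvd_mul_right _ _).trans hc)
      obtain ⟨y, hy, hcy⟩ := h2 c ((dvd_mul_left _ _).trans hc)
      refine ⟨z x y, Finset.mem_image.mpr ⟨(x, y), Finset.mk_mem_product hx hy, rfl⟩, ?_⟩
      rw [Nat.cast_mul]
      apply Int.modEq_iff_dvd.mpr
      apply hab'.mul_dvd
      · have e1 := hza x y
        have e2 := Int.modEq_iff_dvd.mp hcx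
        have := dvd_add e1 e2
        have e3 : z x y - x + (x - c) = z x y - c := by ring
        rwa [e3] at this
      · have e1 := hzb x y
        have e2 := Int.modEq_iff_dvd.mp hcy
        have := dvd_add e1 e2
        have e3 : z x y - y + (y - c) = z x y - c := by ring
        rwa [e3] at this

end Pool.Agent.RAD.H18
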