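import Pool.Agent.Helper94_Rad.Stmt

/-!
# Squad RAD, module UCT: Vandermonde determinants (helper18)
-/

set_option autoImplicit false

namespace Pool.Agent.RAD.H18

open Polynomial

/-- `A * V` is a determinant whose last column consists of values of `R`. -/
theorem dvd_lead_mul_det (R : ℤ[X]) (D : ℕ) (hD : R.natDegree = D) (u : ℤ)
    (c : Fin (D + 1) → ℤ) (hc : ∀ i, u ∣ R.eval (c i)) :
    u ∣ R.leadingCoeff * (Matrix.vandermonde c).det := by
  choose w hw using hc
  have h1 := Matrix.det_updateCol_sum (Matrix.vandermonde c) (Fin.last D)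
    (fun k => R.coeff (k : ℕ))
  have h2 : (fun k => ∑ i : Fin (D + 1), R.coeff (i : ℕ) • (Matrix.vandermonde c) k i)
      = u • w := by
    funext i
    rw [Pi.smul_apply, smul_eq_mul, ← hw i, eval_eq_sum_range, hD, Finset.sum_range]
    refine Finset.sum_congr rfl fun k _ => ?_
    rw [Matrix.vandermonde_apply, smul_eq_mul]
  have h3 : R.coeff ((Fin.last D : Fin (D + 1)) : ℕ) = R.leadingCoeff := by
    rw [Fin.val_last, leadingCoeff, hD]
  have h4 := Matrix.det_updateCol_smul (Matrix.vandermonde c) (Fin.last D) u w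
  have h5 : ((Matrix.vandermonde c).updateCol (Fin.last D) (u • w)).det
      = R.leadingCoeff * (Matrix.vandermonde c).det := by
    rw [← h2, ← h3]
    simpa using h1
  rw [← h5, h4]
  exact dvd_mul_right _ _

theorem sum_card_Ioi (D : ℕ) : ∑ i : Fin (D + 1), (Finset.Ioi i).card = D * (D + 1) / 2 := by
  have h1 : ∀ i : Fin (D + 1), (Finset.Ioi i).card = D - (i : ℕ) := by
    intro i
    rw [Fin.card_Ioi]
    omega
  simp only [h1]
  rw [Fin.sum_univ_eq_sum_range (fun i => D - i) (D + 1)]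
  have h2 := Finset.sum_range_reflect (fun i => i) (D + 1)
  have h3 : ∑ j ∈ Finset.range (D + 1), (D - j) = ∑ j ∈ Finset.range (D + 1), j := by
    rw [← h2]
    refine Finset.sum_congr rfl fun j _ => ?_
    omega
  rw [h3, Finset.sum_range_id]
  congr 1
  rw [Nat.add_sub_cancel]
  ring

/-- an interval of length `< L` contains at most `D` solutions -/
theorem few (R : ℤ[X]) (D L u : ℕ) (hD : R.natDegree = D) (hL : 1 ≤ L)
    (hu : R.leadingCoeff.natAbs * L ^ (D * (D + 1) / 2) < u) (hA : R.leadingCoeff ≠ 0)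
    (s : Finset ℤ) (hs : ∀ c ∈ s, (u : ℤ) ∣ R.eval c)
    (hsL : ∀ c ∈ s, ∀ c' ∈ s, c' - c < (L : ℤ)) : s.card ≤ D := by
  by_contra hcon
  rw [not_le] at hcon
  obtain ⟨s', hs', hcard⟩ := Finset.exists_subset_card_eq (Nat.succ_le_of_lt hcon)
  set f := s'.orderEmbOfFin hcard with hf
  have hfm : ∀ i, f i ∈ s := fun i => hs' (Finset.orderEmbOfFin_mem s' hcard i)
  set c : Fin (D + 1) → ℤ := fun i => f i with hc
  have h1 := dvd_lead_mul_det R D hD u c (fun i => hs _ (hfm i))
  have hfac : ∀ i j : Fin (D + 1), i < j → 0 < c j - c i ∧ c j - c i ≤ L := by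
    intro i j hij
    have h2 : f i < f j := f.strictMono hij
    have h3 := hsL _ (hfm i) _ (hfm j)
    constructor
    · show 0 < f j - f i
      linarith
    · exact h3.le
  have hV0 : 0 < (Matrix.vandermonde c).det := by
    rw [Matrix.det_vandermonde]
    refine Finset.prod_pos fun i _ => Finset.prod_pos fun j hj => ?_
    exact (hfac i j (Finset.mem_Ioi.mp hj)).1
  have hVle : (Matrix.vandermonde c).det ≤ (L : ℤ) ^ (D * (D + 1) / 2) := by
    rw [Matrix.det_vandermonde, ← sum_card_Ioi, ← Finset.prod_pow_eq_pow_sum]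
    refine Finset.prod_le_prod (fun i _ => Finset.prod_nonneg fun j hj =>
      (hfac i j (Finset.mem_Ioi.mp hj)).1.le) fun i _ => ?_
    rw [← Finset.prod_const]
    exact Finset.prod_le_prod (fun j hj => (hfac i j (Finset.mem_Ioi.mp hj)).1.le)
      fun j hj => (hfac i j (Finset.mem_Ioi.mp hj)).2
  have hne : R.leadingCoeff * (Matrix.vandermonde c).det ≠ 0 := mul_ne_zero hA hV0.ne'
  have h5 : (u : ℤ) ≤ |R.leadingCoeff * (Matrix.vandermonde c).det| :=
    Int.le_of_dvd (abs_pos.mpr hne) ((dvd_abs _ _).mpr h1)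
  rw [abs_mul, abs_of_pos hV0] at h5
  have h6 : |R.leadingCoeff| * (Matrix.vandermonde c).det
      ≤ |R.leadingCoeff| * (L : ℤ) ^ (D * (D + 1) / 2) :=
    mul_le_mul_of_nonneg_left hVle (abs_nonneg _)
  have h7 : (u : ℤ) ≤ ((R.leadingCoeff.natAbs * L ^ (D * (D + 1) / 2) : ℕ) : ℤ) := by
    push_cast
    exact h5.trans h6
  exact absurd (Int.ofNat_le.mp h7) (not_le.mpr hu)

/-- module UCT -/
theorem uct : UctStmt := by
  classical
  intro R D L H u hD hD1 hL hu
  have hA : R.leadingCoeff ≠ 0 := by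
    intro h0
    rw [leadingCoeff_eq_zero] at h0
    rw [h0, natDegree_zero] at hD
    omega
  set s : Finset ℤ := (Finset.Icc (-(H : ℤ)) H).filter (fun c => (u : ℤ) ∣ R.eval c) with hs
  have hset : {c : ℤ | |c| ≤ (H : ℤ) ∧ (u : ℤ) ∣ R.eval c} = (s : Set ℤ) := by
    ext c
    simp [hs, abs_le]
  rw [hset, Set.ncard_coe_finset]
  have hLpos : (0 : ℤ) < L := by exact_mod_cast hL
  have hmem : ∀ c ∈ s, (0 ≤ c + H ∧ c + H ≤ 2 * H) ∧ (u : ℤ) ∣ R.eval c := by
    intro c hc
    rw [hs, Finset.mem_filter, Finset.mem_Icc] at hc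
    exact ⟨⟨by linarith [hc.1.1], by linarith [hc.1.2]⟩, hc.2⟩
  have h1 := Finset.card_le_mul_card_image_of_maps_to (s := s)
    (t := Finset.range ((2 * H + 1) / L + 1)) (f := fun c : ℤ => ((c + (H : ℤ)) / (L : ℤ)).toNat) (by
      intro c hc
      obtain ⟨⟨h0, h2⟩, -⟩ := hmem c hc
      rw [Finset.mem_range, Nat.lt_succ_iff]
      have h3 : (c + H) / (L : ℤ) ≤ (((2 * H + 1) / L : ℕ) : ℤ) := by
        push_cast
        exact Int.ediv_le_ediv hLpos (by linarith)
      exact Int.toNat_le.mpr h3) D (by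
      intro k _
      refine few R D L u hD hL hu hA _ (fun c hc => ?_) (fun c hc c' hc' => ?_)
      · exact (hmem c (Finset.mem_filter.mp hc).1).2
      · obtain ⟨hc1, hc2⟩ := Finset.mem_filter.mp hc
        obtain ⟨hc3, hc4⟩ := Finset.mem_filter.mp hc'
        have h4 : 0 ≤ (c + H) / (L : ℤ) := Int.ediv_nonneg (hmem c hc1).1.1 hLpos.le
        have h5 : 0 ≤ (c' + H) / (L : ℤ) := Int.ediv_nonneg (hmem c' hc3).1.1 hLpos.le
        have h6 : (c + H) / (L : ℤ) = (c' + H) / (L : ℤ) := by omega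
        have h7 := Int.emod_add_mul_ediv (c + H) L
        have h8 := Int.emod_add_mul_ediv (c' + H) L
        have h9 := Int.emod_nonneg (c + H) hLpos.ne'
        have h10 := Int.emod_lt_of_pos (c' + H) hLpos
        rw [h6] at h7
        linarith)
  rwa [Finset.card_range] at h1

end Pool.Agent.RAD.H18
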